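import Pool.Agent.AT2.Stmts
import Pool.Agent.Helper49_AT3.BRG

/-!
# Squad AT2, rows BJC and BN2

Bessel's inequality for the powers of a regular element, and the bound for the number of the
characters which are fixed by the power map.
-/

open scoped BigOperators

noncomputable section

namespace Pool.Agent.PP.T2.H94

open Pool.Agent.Helper51_AWC Pool.Agent.Helper79_WRA Pool.Agent.PP Pool.Agent.PP.KF
open Pool.Agent.PP.K9 Pool.Agent.PP.K9.H97 Pool.Agent.PP.H75 Pool.Agent.PP.T3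

attribute [local instance] Ideal.Quotient.field

theorem fm_ind {α : Type} {S I : Set α} (hSI : S ⊆ I) [Fintype I] (f : α → ℝ)
    [DecidablePred (· ∈ S)] :
    ∑ᶠ x ∈ S, f x = ∑ x : I, (if (x : α) ∈ S then f x else 0) := by
  classical
  rw [← T3.H49.finsum_mem_fintype (fun x : α => if x ∈ S then f x else 0)]
  refine finsum_congr fun x => ?_
  rw [finsum_eq_if, finsum_eq_if]
  by_cases h : x ∈ S
  · simp [h, hSI h]
  · rw [if_neg h]
    split_ifs <;> rfl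

theorem bjc (co1 : T3.Co1Stmt) (bes : T3.BesStmt) (rgl : T3.RglStmt) (loc : T3.LocStmt)
    (lpw : T3.LpwStmt) (orj : T2.OrjStmt) (vjc : T2.VjcStmt) : T2.BjcStmt := by
  intro ℓ hℓ M _ hM G _ _ N hN e V γ hL u a hu ha hou b hb d hdg j hj
  classical
  have hp : ℓ.Prime := hℓ.out
  have hF : GoodF ℓ (FF M) := H50.fld ℓ Fact.out M hM
  haveI : Finite (Irr G) := (T3.H49.irr_fin G).to_subtype
  haveI : Fintype (Irr G) := Fintype.ofFinite _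
  have huV : u ∈ V := hu.1
  have hEl : ∀ w ∈ V, El ℓ w := by
    intro w hw
    obtain ⟨n, hn⟩ := hL.tp.pg ⟨w, hw⟩
    exact ⟨n, congrArg Subtype.val hn⟩
  have hd : 0 < d := hdg.1
  have hd0 : (d : ℂ) ≠ 0 := by exact_mod_cast hd.ne'
  -- the exponents
  let ex : Fin (ℓ ^ (a - 1)) → ℕ := fun k => j % ℓ + ℓ * k
  have hex2 : ∀ k, j ≡ ex k [MOD ℓ] := by
    intro k
    change j % ℓ = (j % ℓ + ℓ * k) % ℓ
    rw [Nat.add_mul_mod_self_left, Nat.mod_mod]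
  have hex1 : ∀ k, ¬ ℓ ∣ ex k := by
    intro k h
    apply hj
    have h1 := hex2 k
    exact (h1.dvd_iff (dvd_refl ℓ)).2 h
  have hlt : ∀ k, ex k < ℓ ^ a := by
    intro k
    have h1 : j % ℓ < ℓ := Nat.mod_lt _ hp.pos
    have h2 : (k : ℕ) + 1 ≤ ℓ ^ (a - 1) := k.2
    have h3 : ℓ * ((k : ℕ) + 1) ≤ ℓ * ℓ ^ (a - 1) := Nat.mul_le_mul_left _ h2
    have h4 : ℓ * ℓ ^ (a - 1) = ℓ ^ a := by
      rw [← pow_succ']
      congr 1
      omega
    rw [h4, mul_add, mul_one] at h3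
    change j % ℓ + ℓ * (k : ℕ) < ℓ ^ a
    omega
  have hex3 : ∀ k k', k ≠ k' → u ^ ex k ≠ u ^ ex k' := by
    intro k k' hne h
    apply hne
    have h1 : ex k = ex k' := by
      refine pow_injOn_Iio_orderOf ?_ ?_ h
      · rw [Set.mem_Iio, hou]
        exact hlt k
      · rw [Set.mem_Iio, hou]
        exact hlt k'
    have h2 : ℓ * (k : ℕ) = ℓ * (k' : ℕ) := by
      have : j % ℓ + ℓ * (k : ℕ) = j % ℓ + ℓ * (k' : ℕ) := h1
      omega
    exact Fin.ext (Nat.eq_of_mul_eq_mul_left hp.pos h2)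
  let v : Fin (ℓ ^ (a - 1)) → Irr G → ℂ := fun k χ => gv M (Cu u) (u ^ ex k) b χ / d
  -- norms
  have hnorm : ∀ k, ∑ χ, v k χ * starRingEnd ℂ (v k χ) = ((Nat.card V : ℝ) : ℂ) := by
    intro k
    obtain ⟨hCu, hLc⟩ := lpw ℓ (FF M) hF G e V γ hL u huV b hb (ex k) (hex1 k)
    have h1 := co1 ℓ M hM G (u ^ ex k) (hEl _ (V.pow_mem huV _)) b hLc.blk.ix
    rw [hCu] at h1
    obtain ⟨b', d', hb', hd', hcard, -⟩ := rgl ℓ M hM G e V γ hL u hu
    have hbb : b' = b := (loc ℓ (FF M) hF G e V γ hL u huV).2 b' b hb' hb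
    rw [hbb] at hcard
    have hfin : (IrrE M (fun t : Cu u => b t)).Finite := T3.H49.irrE_fin M _
    have h2 : ∑ᶠ κ ∈ IrrE M (fun t : Cu u => b t), κ 1 ^ 2 =
        (Nat.card V : ℂ) * (d : ℂ) ^ 2 := by
      rw [T3.H49.finsum_mem_const_eq hfin (fun κ => κ 1 ^ 2) ((d : ℂ) ^ 2) (by
        intro κ hκ
        rw [hdg.2 κ hκ]), hcard]
    rw [h2, T3.H49.finsum_mem_fintype] at h1
    have h3 : ∀ χ : Irr G, v k χ * starRingEnd ℂ (v k χ) =
        (gv M (Cu u) (u ^ ex k) b χ * starRingEnd ℂ (gv M (Cu u) (u ^ ex k) b χ)) /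
          (d : ℂ) ^ 2 := by
      intro χ
      simp only [v, map_div₀, Complex.conj_natCast]
      field_simp
    simp only [h3]
    rw [← Finset.sum_div, h1]
    push_cast
    field_simp
  have horth : ∀ k k', k ≠ k' → ∑ χ, v k χ * starRingEnd ℂ (v k' χ) = 0 := by
    intro k k' hne
    have h1 := orj ℓ M hM G e V γ hL u huV b hb (ex k) (ex k') (hex1 k)
      ((hex2 k).symm.trans (hex2 k')) (hex3 k k' hne)
    rw [T3.H49.finsum_mem_fintype] at h1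
    have h3 : ∀ χ : Irr G, v k χ * starRingEnd ℂ (v k' χ) =
        (gv M (Cu u) (u ^ ex k) b χ * starRingEnd ℂ (gv M (Cu u) (u ^ ex k') b χ)) /
          ((d : ℂ) * (d : ℂ)) := by
      intro χ
      simp only [v, map_div₀, Complex.conj_natCast]
      rw [div_mul_div_comm]
    simp only [h3]
    rw [← Finset.sum_div, h1, zero_div]
  have hrow : ∀ k, ∑ k', ‖∑ χ, v k χ * starRingEnd ℂ (v k' χ)‖ ≤ (Nat.card V : ℝ) := by
    intro k
    rw [Finset.sum_eq_single k]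
    · rw [hnorm k, Complex.norm_real]
      simp
    · intro k' _ hne
      rw [horth k k' (Ne.symm hne), norm_zero]
    · intro h
      exact absurd (Finset.mem_univ k) h
  -- the test vector
  let P : Set (G → ℂ) := {χ | χ ∈ IrrE M e ∧ ∀ g, χ (g ^ N) = χ g}
  have hPI : P ⊆ Irr G := fun χ h => h.1.1
  let w : (G → ℂ) → ℂ := fun χ => gv M (Cu u) (u ^ j) b χ / d
  let s : Irr G → ℂ := fun χ => if (χ : G → ℂ) ∈ P then starRingEnd ℂ (w χ) else 0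
  obtain ⟨x, hx⟩ : ∃ x : ℝ, x = ∑ᶠ χ ∈ P, Complex.normSq (w χ) := ⟨_, rfl⟩
  have hx1 : x = ∑ χ : Irr G, (if (χ : G → ℂ) ∈ P then Complex.normSq (w χ) else 0) := by
    rw [hx]
    exact fm_ind hPI _
  have hx0 : 0 ≤ x := by
    rw [hx1]
    refine Finset.sum_nonneg fun χ _ => ?_
    split_ifs
    · exact Complex.normSq_nonneg _
    · exact le_rfl
  have hsv : ∀ k, ∑ χ, s χ * v k χ = (x : ℂ) := by
    intro k
    rw [hx1]
    push_cast
    refine Finset.sum_congr rfl fun χ _ => ?_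
    by_cases h : (χ : G → ℂ) ∈ P
    · have h1 : gv M (Cu u) (u ^ j) b χ = gv M (Cu u) (u ^ ex k) b χ :=
        vjc ℓ M hM G N hN u (hEl u huV) b hb.blk.ix χ h.1.1 h.2 j (ex k) hj (hex2 k)
      have h2 : v k χ = w χ := by
        simp only [v, w]
        rw [h1]
      rw [h2]
      simp only [s, if_pos h]
      rw [mul_comm, Complex.mul_conj]
    · simp only [s, if_neg h]
      simp
  have hss : ∑ χ, Complex.normSq (s χ) = x := by
    rw [hx1]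
    refine Finset.sum_congr rfl fun χ _ => ?_
    by_cases h : (χ : G → ℂ) ∈ P
    · simp only [s, if_pos h]
      rw [Complex.normSq_conj]
    · simp only [s, if_neg h]
      simp
  have hB := bes (Fin (ℓ ^ (a - 1))) (Irr G) v _ (Nat.cast_nonneg _) hrow s
  rw [hss] at hB
  simp only [hsv, Complex.normSq_ofReal] at hB
  rw [Finset.sum_const, Finset.card_univ, Fintype.card_fin, nsmul_eq_mul] at hB
  change (ℓ : ℝ) ^ (a - 1) * ∑ᶠ χ ∈ P, Complex.normSq (w χ) ≤ Nat.card V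
  rw [← hx]
  push_cast at hB
  rcases hx0.eq_or_lt with h | h
  · rw [← h, mul_zero]
    positivity
  · have h1 : ((ℓ : ℝ) ^ (a - 1) * x) * x ≤ (Nat.card V : ℝ) * x := by
      calc ((ℓ : ℝ) ^ (a - 1) * x) * x = (ℓ : ℝ) ^ (a - 1) * (x * x) := by ring
        _ ≤ _ := hB
    exact le_of_mul_le_mul_right h1 h

theorem card_units {ℓ a : ℕ} (hp : ℓ.Prime) (ha : 0 < a) :
    ((Finset.range (ℓ ^ a)).filter (fun j => ¬ ℓ ∣ j)).card = ℓ ^ (a - 1) * (ℓ - 1) := by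
  rw [← Nat.totient_prime_pow hp ha, Nat.totient_eq_card_coprime]
  congr 1
  refine Finset.filter_congr fun j _ => ?_
  rw [Nat.coprime_pow_left_iff ha, hp.coprime_iff_not_dvd]

theorem bn2 (inr : T3.InrStmt) (glp : T3.GlpStmt) (lsb : T3.LsbStmt) (nz : K9.NzStmt)
    (rgl : T3.RglStmt) (bjc : T2.BjcStmt) : T2.Bn2Stmt := by
  intro ℓ hℓ M _ hM G _ _ N hN e V γ hL u a hu ha hou
  classical
  have hp : ℓ.Prime := hℓ.out
  obtain ⟨b, d, hb, hdg, -, -⟩ := rgl ℓ M hM G e V γ hL u hu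
  have hd0 : (d : ℂ) ≠ 0 := by exact_mod_cast hdg.1.ne'
  let P : Set (G → ℂ) := {χ | χ ∈ IrrE M e ∧ ∀ g, χ (g ^ N) = χ g}
  have hPf : P.Finite := (T3.H49.irrE_fin M e).subset fun _ h => h.1
  have hq : 0 < ℓ ^ a := pow_pos hp.pos a
  obtain ⟨ζ, hζ⟩ : ∃ ζ : ℂ, IsPrimitiveRoot ζ (ℓ ^ a) :=
    ⟨_, Complex.isPrimitiveRoot_exp (ℓ ^ a) hq.ne'⟩
  have huq : u ^ (ℓ ^ a) = 1 := by
    rw [← hou]
    exact pow_orderOf_eq_one u
  have hex : ∀ χ : G → ℂ, ∃ m : ℕ → ℤ, χ ∈ P → ∀ j : ℕ, gv M (Cu u) (u ^ j) b χ =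
      d * ∑ i ∈ Finset.range (ℓ ^ a), (m i : ℂ) * ζ ^ (i * j) := by
    intro χ
    by_cases h : χ ∈ P
    · obtain ⟨m, hm⟩ := inr M G u (ℓ ^ a) hq huq b hb.blk.ix d hdg ζ hζ χ h.1.1
      exact ⟨m, fun _ => hm⟩
    · exact ⟨0, fun h' => absurd h' h⟩
  choose m hm using hex
  let J : Finset ℕ := (Finset.range (ℓ ^ a)).filter (fun j => ¬ ℓ ∣ j)
  have hJ : J.card = ℓ ^ (a - 1) * (ℓ - 1) := card_units hp ha
  let f : (G → ℂ) → ℕ → ℝ := fun χ j =>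
    Complex.normSq (∑ i ∈ Finset.range (ℓ ^ a), (m χ i : ℂ) * ζ ^ (i * j))
  have h1 : ∀ χ ∈ P, ((ℓ ^ (a - 1) * (ℓ - 1) : ℕ) : ℝ) ≤ ∑ j ∈ J, f χ j := by
    intro χ hχ
    refine (glp ℓ a ha ζ hζ (m χ) ?_).1
    intro h0
    have h2 := lsb ℓ M hM G e V γ hL u hu.1 b hb
    have h3 := nz ℓ M hM G e hL.blk V hL.tp hL.ab u hu.1 (fun t : Cu u => b t) hb.blk.blk hb.und
      h2.1.tp.gd u (Subgroup.mem_zpowers u) χ hχ.1
    apply h3
    have h4 := hm χ hχ 1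
    rw [pow_one] at h4
    change gv M (Cu u) u b χ = 0
    rw [h4]
    simp only [mul_one]
    rw [h0, mul_zero]
  have h2 : ∀ j ∈ J, (ℓ : ℝ) ^ (a - 1) * ∑ χ ∈ hPf.toFinset, f χ j ≤ Nat.card V := by
    intro j hj
    have hj' : ¬ ℓ ∣ j := (Finset.mem_filter.1 hj).2
    have h3 := bjc ℓ M hM G N hN e V γ hL u a hu ha hou b hb d hdg j hj'
    have h4 : ∑ᶠ χ ∈ P, Complex.normSq (gv M (Cu u) (u ^ j) b χ / d) =
        ∑ χ ∈ hPf.toFinset, f χ j := by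
      rw [finsum_mem_eq_finite_toFinset_sum _ hPf]
      refine Finset.sum_congr rfl fun χ hχ => ?_
      have hχ' : χ ∈ P := by simpa using hχ
      rw [hm χ hχ' j, mul_div_cancel_left₀ _ hd0]
    rw [← h4]
    exact h3
  have hl0 : (0 : ℝ) < (ℓ : ℝ) ^ (a - 1) := pow_pos (by exact_mod_cast hp.pos) _
  have h3 : (P.ncard : ℝ) * ((ℓ ^ (a - 1) * (ℓ - 1) : ℕ) : ℝ) ≤
      ∑ χ ∈ hPf.toFinset, ∑ j ∈ J, f χ j := by
    have h4 : (P.ncard : ℝ) * ((ℓ ^ (a - 1) * (ℓ - 1) : ℕ) : ℝ) =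
        ∑ χ ∈ hPf.toFinset, ((ℓ ^ (a - 1) * (ℓ - 1) : ℕ) : ℝ) := by
      rw [Finset.sum_const, nsmul_eq_mul, Set.ncard_eq_toFinset_card P hPf]
    rw [h4]
    refine Finset.sum_le_sum fun χ hχ => h1 χ ?_
    simpa using hχ
  rw [Finset.sum_comm] at h3
  have h5 : (ℓ : ℝ) ^ (a - 1) * ∑ j ∈ J, ∑ χ ∈ hPf.toFinset, f χ j ≤
      ((ℓ ^ (a - 1) * (ℓ - 1) : ℕ) : ℝ) * Nat.card V := by
    rw [Finset.mul_sum, ← hJ]
    calc ∑ j ∈ J, (ℓ : ℝ) ^ (a - 1) * ∑ χ ∈ hPf.toFinset, f χ j ≤ ∑ j ∈ J, (Nat.card V : ℝ) :=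
          Finset.sum_le_sum h2
      _ = (J.card : ℝ) * Nat.card V := by rw [Finset.sum_const, nsmul_eq_mul]
  have hc : (0 : ℝ) < ((ℓ ^ (a - 1) * (ℓ - 1) : ℕ) : ℝ) := by
    have h6 : 0 < ℓ ^ (a - 1) * (ℓ - 1) :=
      Nat.mul_pos (pow_pos hp.pos _) (by have := hp.two_le; omega)
    exact_mod_cast h6
  have h7 : ((P.ncard : ℝ) * (ℓ : ℝ) ^ (a - 1)) * ((ℓ ^ (a - 1) * (ℓ - 1) : ℕ) : ℝ) ≤
      (Nat.card V : ℝ) * ((ℓ ^ (a - 1) * (ℓ - 1) : ℕ) : ℝ) := by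
    have h8 := mul_le_mul_of_nonneg_left h3 hl0.le
    calc ((P.ncard : ℝ) * (ℓ : ℝ) ^ (a - 1)) * ((ℓ ^ (a - 1) * (ℓ - 1) : ℕ) : ℝ) =
          (ℓ : ℝ) ^ (a - 1) * ((P.ncard : ℝ) * ((ℓ ^ (a - 1) * (ℓ - 1) : ℕ) : ℝ)) := by ring
      _ ≤ _ := h8
      _ ≤ _ := h5
      _ = _ := by ring
  have h9 := le_of_mul_le_mul_right h7 hc
  change P.ncard * ℓ ^ (a - 1) ≤ Nat.card V
  exact_mod_cast h9

end Pool.Agent.PP.T2.H94
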